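import Pool.Agent.H705.GB.Stm

/-! # The gcd recursion for Goldbach pairs: induction over the levels -/

set_option autoImplicit false

namespace Pool.Agent.H726.GB

open Pool.Agent.H705.GB

theorem ok_bounds {z B N T H K j n c : ℕ} (h : Ok z B N T H K j n c) :
    n ≤ T ∧ N ≤ c + H ∧ (2 * N - c) % 2 = 1 := by
  obtain ⟨h1, h2, h3, h4, h5⟩ := h
  have h6 : 1 ≤ 3 ^ j := Nat.one_le_pow _ _ (by norm_num)
  have h7 : 1 * ((N - c) + K * B + T) ≤ 3 ^ j * ((N - c) + K * B + T) :=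
    Nat.mul_le_mul_right _ h6
  have h8 : 0 ≤ K * B := Nat.zero_le _
  have h9 : 0 ≤ K * (2 * z + 1) := Nat.zero_le _
  refine ⟨by omega, by omega, by omega⟩

theorem T_LNK (hNXT : P_NXT) : P_LNK := by
  intro z B N T H L Q K
  induction K with
  | zero =>
    intro j n c x _ _ _ h
    exact h.elim
  | succ K ih =>
    intro j n c x hG hok hx hR
    obtain ⟨k1, k2, k3⟩ := ok_bounds hok
    rcases hR with ⟨h1, h2⟩ | ⟨h1, h2, h3⟩ | ⟨h1, h2, h3, h4⟩
    · exact ⟨n, c, hok.2.1, k1, hok.1, hok.2.2.1, k2, rfl, h1, h2⟩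
    · obtain ⟨a1, _, _, a4⟩ := hNXT z B N T H L K j n c _ _ hG hok h1 ((hx c).trans hok.1)
        ((hx (2 * N - c)).trans k3)
      obtain ⟨n', c', b1, b2, b3, b4, b5, b6, b7, b8⟩ := ih _ _ _ x hG (a1 h2) hx h3
      exact ⟨n', c', b1, b2, b3, b4, b5, (a4 x rfl rfl).trans b6, b7, b8⟩
    · obtain ⟨_, a2, _, a4⟩ := hNXT z B N T H L K j n c _ _ hG hok h1 ((hx c).trans hok.1)
        ((hx (2 * N - c)).trans k3)
      obtain ⟨n', c', b1, b2, b3, b4, b5, b6, b7, b8⟩ := ih _ _ _ x hG (a2 h2 h3) hx h4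
      exact ⟨n', c', b1, b2, b3, b4, b5, (a4 x rfl rfl).trans b6, b7, b8⟩

end Pool.Agent.H726.GB
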